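import Pool.Agent.W519.NL

/-!
`MP_bb0bf1_gt`, Q1: spaces on which every closed preorder is weakly continuous; conditions that need
neither paracompactness nor countable neighbourhood bases.
-/

open Set Topology Filter TopologicalSpace Pool.Agent.W519.N

namespace Pool.Agent.Results.MP_bb0bf1_gt.BeyondParacompact

universe u v

theorem result :
    (∀ (X : Type u) [TopologicalSpace X], IsCompact {x : X | ¬ IsOpen ({x} : Set X)} →
      AllWeaklyCont X) ∧
    (∀ (X : Type u) [TopologicalSpace X] (C : ℕ → Set X), (∀ n, IsCompact (C n)) →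
      (∀ n, IsClosed (C n)) → (∀ n, C n ⊆ interior (C (n + 1))) →
      {x : X | ¬ IsOpen ({x} : Set X)} ⊆ ⋃ n, C n → AllWeaklyCont X) ∧
    (∀ (X : Type u) [TopologicalSpace X] [T2Space X],
      IsClosedMap (Prod.fst : X × X → X) ∨ (SequentialSpace X ∧ SeqCompactSpace X) →
      (AllWeaklyCont X ↔ NormalSpace X)) ∧
    (∀ (X : Type u) [TopologicalSpace X] [T2Space X] (ι : Type v) (W : ι → Set X) (d : ι → X)
      (s : ι → ℕ → X), ¬ Countable ι → LocallyFinite W →
      Pairwise (fun i j => Disjoint (W i) (W j)) → (∀ i, d i ∈ W i) → (∀ i n, s i n ∈ W i) →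
      (∀ i n, s i n ≠ d i) → (∀ i, d i ∈ closure (range (s i))) → ¬ AllWeaklyCont X) ∧
    (∀ (X : Type u) [TopologicalSpace X] [T2Space X] (W : ℕ → Set X) (d : ℕ → X)
      (s : ℕ → ℕ → X), LocallyFinite W →
      Pairwise (fun i j => Disjoint (W i) (W j)) → (∀ i, d i ∈ W i) → (∀ i n, s i n ∈ W i) →
      (∀ i n, s i n ≠ d i) → (∀ i, d i ∈ closure (range (s i))) →
      ∀ (p : X) (N : ℕ → Set X), (𝓝 p).HasBasis (fun _ : ℕ => True) N →
      (∀ m n, Disjoint (W m) (N n)) →
      ∀ x : ℕ → ℕ → X, (∀ m k, x m k ∈ N m) → (∀ m k, x m k ≠ p) →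
      (∀ m, LocallyFinite (fun k => ({x m k} : Set X))) → ¬ AllWeaklyCont X) ∧
    (∀ (X : Type u) [TopologicalSpace X] [T2Space X] [ParacompactSpace X],
      (∀ k : X, ¬ IsOpen ({k} : Set X) → ∃ S : Set X, S.Countable ∧ k ∉ S ∧ k ∈ closure S) →
      AllWeaklyCont X → IsLindelof {x : X | ¬ IsOpen ({x} : Set X)}) := by
  refine ⟨fun _ _ h => allWeaklyCont_iff_allNormal.2 (allNormal_of_isCompact_nonIso h),
    fun _ _ C h1 h2 h3 h4 =>
      allWeaklyCont_iff_allNormal.2 (allNormal_of_exhaustion C h1 h2 h3 h4),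
    fun _ _ _ h => ⟨fun h1 => normalSpace_of_allNormal (allWeaklyCont_iff_allNormal.1 h1),
      fun _ => allWeaklyCont_iff_allNormal.2 (allNormal_of_isClosedMap_fst
        (h.elim id fun ⟨_, _⟩ => isClosedMap_fst_of_seqCompact))⟩, ?_, ?_,
    fun _ _ _ _ hS h => isLindelof_of_allNormal hS (allWeaklyCont_iff_allNormal.1 h)⟩
  · intro X _ _ ι W d s hι hW hWd hd hs hne hcl hall
    refine not_allNormal_of_family (M := (univ : Set ι)) ?_ W hW (fun i _ j _ hij => hWd hij)
      (fun i _ => ⟨d i, s i, hd i, hs i, hne i, hcl i⟩) (allWeaklyCont_iff_allNormal.1 hall)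
    intro h
    exact hι (countable_univ_iff.1 h)
  · intro X _ _ W d s hW hWd hd hs hne hcl p N hN hWN x hx hxp hxl hall
    exact not_allNormal_of_grid p N hN x hx hxp hxl W hW (fun i j hij => hWd hij) hWN d hd s hs hne
      hcl (allWeaklyCont_iff_allNormal.1 hall)

end Pool.Agent.Results.MP_bb0bf1_gt.BeyondParacompact
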